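import Pool.Agent.K1H54.GC.Stm3
import Pool.Agent.H423R2.RZL.HBLS

set_option autoImplicit false

/-! # Heath-Brown's quadratic large sieve, dual form (project GC, piece DUAL) -/

namespace Pool.Agent.K1H37.GC

open Finset Pool.Agent.K1H54.GC Pool.Agent.H306R2.RZ

/-- the odd primes up to `Q` -/
def PP (Q : ℕ) : Finset ℕ := (Icc 1 Q).filter fun p => p.Prime ∧ p ≠ 2

theorem PP_sub (Q : ℕ) : PP Q ⊆ osf Q := by
  intro p hp
  rw [PP, mem_filter] at hp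
  rw [osf, mem_filter]
  exact ⟨hp.1, hp.2.1.odd_of_ne_two hp.2.2, hp.2.1.prime.squarefree⟩

theorem dual_aux {M Q : ℕ} {K : ℝ} (hK : 0 ≤ K) (h : LSB M Q K) (b : ℕ → ℝ) :
    ∑ p ∈ PP Q, (∑ k ∈ sqf M, b k * js (k : ℤ) p) ^ 2 ≤ K * ∑ k ∈ sqf M, (b k) ^ 2 := by
  classical
  obtain ⟨c, hc⟩ : ∃ c : ℕ → ℝ, c = fun p => ∑ k ∈ sqf M, b k * js (k : ℤ) p := ⟨_, rfl⟩
  obtain ⟨d, hd⟩ : ∃ d : ℕ → ℝ, d = fun m : ℕ => ∑ p ∈ PP Q, c p * js ((m : ℕ) : ℤ) p := ⟨_, rfl⟩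
  obtain ⟨S, hS⟩ : ∃ S, S = ∑ p ∈ PP Q, (c p) ^ 2 := ⟨_, rfl⟩
  have hgoal : ∑ p ∈ PP Q, (∑ k ∈ sqf M, b k * js (k : ℤ) p) ^ 2 = S := by rw [hS, hc]
  rw [hgoal]
  have hS0 : 0 ≤ S := by rw [hS]; exact Finset.sum_nonneg fun _ _ => sq_nonneg _
  -- the large sieve
  have h1 := h fun n => if n ∈ PP Q then ((c n : ℝ) : ℂ) else 0
  have h2 : ∀ m : ℕ, ∑ n ∈ osf Q, (if n ∈ PP Q then ((c n : ℝ) : ℂ) else 0) *
      ((js (m : ℤ) n : ℝ) : ℂ) = ((d m : ℝ) : ℂ) := by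
    intro m
    rw [hd]
    push_cast
    rw [← Finset.sum_subset (PP_sub Q)]
    · refine Finset.sum_congr rfl fun p hp => ?_
      rw [if_pos hp]
    · intro p _ hp
      rw [if_neg hp, zero_mul]
  have h3 : ∑ n ∈ osf Q, ‖(if n ∈ PP Q then ((c n : ℝ) : ℂ) else 0)‖ ^ 2 = S := by
    rw [hS, ← Finset.sum_subset (PP_sub Q)]
    · refine Finset.sum_congr rfl fun p hp => ?_
      rw [if_pos hp, Complex.norm_real, Real.norm_eq_abs, sq_abs]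
    · intro p _ hp
      rw [if_neg hp]
      simp
  have h4 : ∑ m ∈ sqf M, (d m) ^ 2 ≤ K * S := by
    rw [h3] at h1
    refine le_trans (le_of_eq ?_) h1
    refine Finset.sum_congr rfl fun m _ => ?_
    rw [h2 m, Complex.norm_real, Real.norm_eq_abs, sq_abs]
  -- duality
  have h5 : S = ∑ k ∈ sqf M, b k * d k := by
    have e1 : ∀ k, b k * d k = ∑ p ∈ PP Q, b k * (c p * js (k : ℤ) p) := by
      intro k
      rw [hd]
      exact Finset.mul_sum _ _ _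
    simp only [e1]
    rw [Finset.sum_comm, hS]
    refine Finset.sum_congr rfl fun p _ => ?_
    have e2 : (c p) ^ 2 = c p * ∑ k ∈ sqf M, b k * js (k : ℤ) p := by rw [sq, hc]
    rw [e2, Finset.mul_sum]
    refine Finset.sum_congr rfl fun k _ => ?_
    ring
  have h6 : S ^ 2 ≤ (∑ k ∈ sqf M, (b k) ^ 2) * ∑ k ∈ sqf M, (d k) ^ 2 := by
    nth_rewrite 1 [h5]
    exact Finset.sum_mul_sq_le_sq_mul_sq _ _ _
  have h7 : 0 ≤ ∑ k ∈ sqf M, (b k) ^ 2 := Finset.sum_nonneg fun _ _ => sq_nonneg _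
  have h8 : S * S ≤ (K * ∑ k ∈ sqf M, (b k) ^ 2) * S := by
    calc S * S = S ^ 2 := (sq S).symm
      _ ≤ (∑ k ∈ sqf M, (b k) ^ 2) * (K * S) := h6.trans (mul_le_mul_of_nonneg_left h4 h7)
      _ = _ := by ring
  rcases hS0.eq_or_lt with h9 | h9
  · rw [← h9]
    positivity
  · exact le_of_mul_le_mul_right h8 h9

theorem t_DUAL : S_DUAL := by
  intro ε hε
  obtain ⟨C, hC, h⟩ := Pool.Agent.H423R2.RZL.HBLSn.HBLS ε hε
  refine ⟨C, hC.le, fun Q M hQ hM b => ?_⟩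
  have h1 := dual_aux (by positivity) (h M Q hM hQ) b
  have e : C * ((Q : ℝ) * M) ^ ε * (Q + M) = C * ((M : ℝ) * Q) ^ ε * (M + Q) := by
    rw [mul_comm (Q : ℝ) M, add_comm (Q : ℝ) M]
  rw [e]
  exact h1

end Pool.Agent.K1H37.GC
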